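import Pool.Agent.Helper46.Dense.Stmts

/-!
Packet D3 of MP_62448f_co: positive definiteness of the antiperiodic triangle kernel and the
midpoint rule.
-/

set_option autoImplicit false

namespace Pool.Agent.Helper17.Dense

open Finset MeasureTheory
open Pool.Agent.Helper46.Dense

/-! ### The midpoint rule -/

/-- antiderivative of `max 0 x` -/
noncomputable def gg (x : ℝ) : ℝ := (max 0 x) ^ 2 / 2

lemma gg_mid (u v : ℝ) (h : u ≤ v) : (v - u) * max 0 ((u + v) / 2) ≤ gg v - gg u := by
  unfold gg
  rcases le_total v 0 with hv | hv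
  · rw [max_eq_left hv, max_eq_left (h.trans hv), max_eq_left (by linarith)]
    simp
  · rcases le_total 0 u with hu | hu
    · rw [max_eq_right hv, max_eq_right hu, max_eq_right (by linarith)]
      apply le_of_eq
      ring
    · rw [max_eq_right hv, max_eq_left hu]
      rcases le_total 0 ((u + v) / 2) with h1 | h1
      · rw [max_eq_right h1]
        nlinarith [sq_nonneg u]
      · rw [max_eq_left h1]
        nlinarith [sq_nonneg v]

/-- the antiderivative of the kernel -/
noncomputable def BB (j x : ℝ) : ℝ := gg (j - 1 + x) - gg (j - x)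

lemma BB_mid (j s e : ℝ) (h : s ≤ e) :
    (e - s) * (max 0 (j - (s + e) / 2) + max 0 (j - 1 + (s + e) / 2)) ≤ BB j e - BB j s := by
  have h1 := gg_mid (j - 1 + s) (j - 1 + e) (by linarith)
  have h2 := gg_mid (j - e) (j - s) (by linarith)
  have e1 : (j - 1 + s + (j - 1 + e)) / 2 = j - 1 + (s + e) / 2 := by ring
  have e2 : (j - e + (j - s)) / 2 = j - (s + e) / 2 := by ring
  rw [e1] at h1
  rw [e2] at h2
  unfold BB
  have e3 : j - 1 + e - (j - 1 + s) = e - s := by ring
  have e4 : j - s - (j - e) = e - s := by ring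
  rw [e3] at h1
  rw [e4] at h2
  linarith

lemma BB_symm (j x : ℝ) : BB j (1 - x) = - BB j x := by
  unfold BB
  have e1 : j - 1 + (1 - x) = j - x := by ring
  have e2 : j - (1 - x) = j - 1 + x := by ring
  rw [e1, e2]
  ring

theorem mid : MidStmt := by
  intro E m j hm hsum hj0 hj1 c hc
  have hposd : ∀ d, pos m d = (∑ i ∈ range d, m i + ∑ i ∈ range (d + 1), m i) / 2 := by
    intro d
    unfold pos
    rw [sum_range_succ]
    ring
  -- left part
  have hleft : ∑ d ∈ range c, m d * (max 0 (j - |pos m c - pos m d|) +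
      max 0 (j - 1 + |pos m c - pos m d|)) ≤ BB j (pos m c) - BB j (m c / 2) := by
    have key : ∀ d ∈ range c, m d * (max 0 (j - |pos m c - pos m d|) +
      max 0 (j - 1 + |pos m c - pos m d|)) ≤ BB j (pos m c - ∑ i ∈ range d, m i) -
        BB j (pos m c - ∑ i ∈ range (d + 1), m i) := by
      intro d hd
      rw [mem_range] at hd
      have hle : ∑ i ∈ range (d + 1), m i ≤ ∑ i ∈ range c, m i :=
        sum_le_sum_of_subset_of_nonneg (range_subset_range.2 hd) (fun i _ _ => hm i)
      have h1 : 0 ≤ pos m c - pos m d := by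
        rw [hposd d]
        unfold pos
        have := hm c
        have := hm d
        rw [sum_range_succ] at hle ⊢
        linarith
      rw [abs_of_nonneg h1]
      have h2 := BB_mid j (pos m c - ∑ i ∈ range (d + 1), m i) (pos m c - ∑ i ∈ range d, m i) (by
        rw [sum_range_succ]
        linarith [hm d])
      have e1 : (pos m c - ∑ i ∈ range (d + 1), m i + (pos m c - ∑ i ∈ range d, m i)) / 2 =
          pos m c - pos m d := by
        rw [hposd d]
        ring
      have e2 : pos m c - ∑ i ∈ range d, m i - (pos m c - ∑ i ∈ range (d + 1), m i) = m d := by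
        rw [sum_range_succ]
        ring
      rw [e1, e2] at h2
      exact h2
    refine (sum_le_sum key).trans ?_
    have htel : ∑ d ∈ range c, (BB j (pos m c - ∑ i ∈ range d, m i) -
        BB j (pos m c - ∑ i ∈ range (d + 1), m i)) =
        BB j (pos m c - ∑ i ∈ range 0, m i) - BB j (pos m c - ∑ i ∈ range c, m i) :=
      sum_range_sub' (fun d => BB j (pos m c - ∑ i ∈ range d, m i)) c
    rw [htel]
    have e3 : pos m c - ∑ i ∈ range c, m i = m c / 2 := by unfold pos; ring
    rw [e3]
    simp
  -- right part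
  have hright : ∑ d ∈ Ico (c + 1) E, m d * (max 0 (j - |pos m c - pos m d|) +
      max 0 (j - 1 + |pos m c - pos m d|)) ≤ BB j (1 - pos m c) - BB j (m c / 2) := by
    have key : ∀ d ∈ Ico (c + 1) E, m d * (max 0 (j - |pos m c - pos m d|) +
      max 0 (j - 1 + |pos m c - pos m d|)) ≤ BB j (∑ i ∈ range (d + 1), m i - pos m c) -
        BB j (∑ i ∈ range d, m i - pos m c) := by
      intro d hd
      rw [mem_Ico] at hd
      have hle : ∑ i ∈ range (c + 1), m i ≤ ∑ i ∈ range d, m i :=
        sum_le_sum_of_subset_of_nonneg (range_subset_range.2 hd.1) (fun i _ _ => hm i)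
      have h1 : pos m c - pos m d ≤ 0 := by
        rw [hposd c]
        unfold pos
        have := hm c
        have := hm d
        rw [sum_range_succ] at hle ⊢
        linarith
      rw [abs_of_nonpos h1]
      have h2 := BB_mid j (∑ i ∈ range d, m i - pos m c) (∑ i ∈ range (d + 1), m i - pos m c) (by
        rw [sum_range_succ]
        linarith [hm d])
      have e1 : (∑ i ∈ range d, m i - pos m c + (∑ i ∈ range (d + 1), m i - pos m c)) / 2 =
          -(pos m c - pos m d) := by
        rw [hposd d]
        ring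
      have e2 : ∑ i ∈ range (d + 1), m i - pos m c - (∑ i ∈ range d, m i - pos m c) = m d := by
        rw [sum_range_succ]
        ring
      rw [e1, e2] at h2
      exact h2
    refine (sum_le_sum key).trans ?_
    have htel : ∑ d ∈ Ico (c + 1) E, (BB j (∑ i ∈ range (d + 1), m i - pos m c) -
        BB j (∑ i ∈ range d, m i - pos m c)) =
        BB j (∑ i ∈ range E, m i - pos m c) - BB j (∑ i ∈ range (c + 1), m i - pos m c) :=
      sum_Ico_sub (fun d => BB j (∑ i ∈ range d, m i - pos m c)) (by omega)
    rw [htel, hsum]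
    have e3 : ∑ i ∈ range (c + 1), m i - pos m c = m c / 2 := by
      unfold pos
      rw [sum_range_succ]
      ring
    rw [e3]
  -- the sum
  have hsplit : ∑ d ∈ range E, m d * (max 0 (j - |pos m c - pos m d|) +
      max 0 (j - 1 + |pos m c - pos m d|)) =
      ∑ d ∈ range c, m d * (max 0 (j - |pos m c - pos m d|) +
        max 0 (j - 1 + |pos m c - pos m d|)) +
      m c * j +
      ∑ d ∈ Ico (c + 1) E, m d * (max 0 (j - |pos m c - pos m d|) +
        max 0 (j - 1 + |pos m c - pos m d|)) := by
    rw [range_eq_Ico, ← sum_Ico_consecutive _ (Nat.zero_le (c + 1)) (Nat.succ_le_of_lt hc),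
      sum_Ico_succ_top (Nat.zero_le c), ← range_eq_Ico]
    congr 2
    rw [sub_self, abs_zero, sub_zero, add_zero, max_eq_right hj0, max_eq_left (by linarith),
      add_zero]
  rw [hsplit]
  have h3 := BB_symm j (pos m c)
  have h4 : -2 * BB j (m c / 2) + m c * j ≤ j ^ 2 + (m c) ^ 2 / 4 := by
    unfold BB gg
    have h5 : 0 ≤ (max 0 (j - 1 + m c / 2)) ^ 2 := sq_nonneg _
    rcases le_total (j - m c / 2) 0 with h6 | h6
    · rw [max_eq_left h6]
      nlinarith [sq_nonneg (j - m c / 2)]
    · rw [max_eq_right h6]
      nlinarith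
  linarith

end Pool.Agent.Helper17.Dense
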