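import Pool.Agent.Helper46.Dense.Stmts

/-!
Packet D3 of MP_62448f_co: positive definiteness of the antiperiodic triangle kernel.
-/

set_option autoImplicit false

namespace Pool.Agent.Helper17.Dense

open Finset MeasureTheory
open Pool.Agent.Helper46.Dense

/-- indicator of an interval -/
noncomputable def JJ (a b : ℝ) : ℝ → ℝ := (Set.Icc a b).indicator (fun _ => (1 : ℝ))

lemma JJ_mul (a b c d : ℝ) (z : ℝ) : JJ a b z * JJ c d z = JJ (max a c) (min b d) z := by
  unfold JJ
  rw [← Set.Icc_inter_Icc]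
  by_cases h1 : z ∈ Set.Icc a b <;> by_cases h2 : z ∈ Set.Icc c d <;> simp [h1, h2]

lemma JJ_integrable (a b : ℝ) : Integrable (JJ a b) := by
  unfold JJ
  rw [integrable_indicator_iff measurableSet_Icc]
  exact integrableOn_const (by simp) (by simp)

lemma JJ_integral (a b : ℝ) : ∫ z, JJ a b z = max 0 (b - a) := by
  unfold JJ
  rw [integral_indicator measurableSet_Icc]
  simp [max_comm]

/-- the function `χ_p` -/
noncomputable def chi (j p : ℝ) (z : ℝ) : ℝ := JJ p (min 1 (p + j)) z - JJ 0 (p + j - 1) z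

lemma chi_mul (j p q z : ℝ) : chi j p z * chi j q z =
    JJ (max p q) (min (min 1 (p + j)) (min 1 (q + j))) z -
    JJ (max p 0) (min (min 1 (p + j)) (q + j - 1)) z -
    JJ (max 0 q) (min (p + j - 1) (min 1 (q + j))) z +
    JJ (max 0 0) (min (p + j - 1) (q + j - 1)) z := by
  unfold chi
  rw [← JJ_mul, ← JJ_mul, ← JJ_mul, ← JJ_mul]
  ring

lemma chi_mul_integrable (j p q : ℝ) : Integrable (fun z => chi j p z * chi j q z) := by
  simp_rw [chi_mul]
  exact (((JJ_integrable _ _).sub (JJ_integrable _ _)).sub (JJ_integrable _ _)).add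
    (JJ_integrable _ _)

lemma integral4 {f g h k : ℝ → ℝ} (hf : Integrable f) (hg : Integrable g) (hh : Integrable h)
    (hk : Integrable k) : (∫ z, (f z - g z - h z + k z)) =
      (∫ z, f z) - (∫ z, g z) - (∫ z, h z) + (∫ z, k z) := by
  have e1 : (∫ z, (f z - g z - h z + k z)) = (∫ z, (f z - g z - h z)) + (∫ z, k z) :=
    integral_add (hf.sub hg |>.sub hh) hk
  have e2 : (∫ z, (f z - g z - h z)) = (∫ z, (f z - g z)) - (∫ z, h z) :=
    integral_sub (hf.sub hg) hh
  have e3 : (∫ z, (f z - g z)) = (∫ z, f z) - (∫ z, g z) := integral_sub hf hg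
  rw [e1, e2, e3]

lemma chi_integral_le (j p q : ℝ) (hj0 : 0 ≤ j) (hj1 : j ≤ 1 / 2) (hp : 0 ≤ p) (hq : q ≤ 1)
    (hpq : p ≤ q) :
    ∫ z, chi j p z * chi j q z = max 0 (j - (q - p)) - max 0 (j - 1 + (q - p)) := by
  simp_rw [chi_mul]
  have i1 := JJ_integrable (max p q) (min (min 1 (p + j)) (min 1 (q + j)))
  have i2 := JJ_integrable (max p 0) (min (min 1 (p + j)) (q + j - 1))
  have i3 := JJ_integrable (max 0 q) (min (p + j - 1) (min 1 (q + j)))
  have i4 := JJ_integrable (max 0 0) (min (p + j - 1) (q + j - 1))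
  rw [integral4 i1 i2 i3 i4]
  simp only [JJ_integral]
  rw [max_eq_right hpq, max_eq_left hp, max_self, max_eq_right (hp.trans hpq),
    min_eq_left (by linarith : p + j - 1 ≤ q + j - 1)]
  have e1 : min (min 1 (p + j)) (min 1 (q + j)) = min 1 (p + j) := by
    apply min_eq_left
    exact min_le_min le_rfl (by linarith)
  have e2 : min (p + j - 1) (min 1 (q + j)) = p + j - 1 := by
    apply min_eq_left
    apply le_min <;> linarith
  have e3 : min (min 1 (p + j)) (q + j - 1) = q + j - 1 := by
    apply min_eq_right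
    apply le_min <;> linarith
  rw [e1, e2, e3, max_eq_left (by linarith : p + j - 1 - q ≤ 0)]
  rcases le_total (p + j) 1 with h | h
  · rw [min_eq_right h, max_eq_left (by linarith : p + j - 1 - 0 ≤ 0)]
    have e4 : p + j - q = j - (q - p) := by ring
    have e5 : q + j - 1 - p = j - 1 + (q - p) := by ring
    rw [e4, e5]
    ring
  · rw [min_eq_left h, max_eq_right (by linarith : 0 ≤ p + j - 1 - 0),
      max_eq_right (by linarith : (0 : ℝ) ≤ 1 - q), max_eq_right (by linarith : 0 ≤ j - (q - p))]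
    have e5 : q + j - 1 - p = j - 1 + (q - p) := by ring
    rw [e5]
    ring

lemma chi_integral (j p q : ℝ) (hj0 : 0 ≤ j) (hj1 : j ≤ 1 / 2) (hp : 0 ≤ p) (hp1 : p ≤ 1)
    (hq0 : 0 ≤ q) (hq : q ≤ 1) :
    ∫ z, chi j p z * chi j q z = max 0 (j - |p - q|) - max 0 (j - 1 + |p - q|) := by
  rcases le_total p q with h | h
  · rw [chi_integral_le j p q hj0 hj1 hp hq h, abs_of_nonpos (by linarith)]
    ring_nf
  · have : ∀ z, chi j p z * chi j q z = chi j q z * chi j p z := fun z => mul_comm _ _
    simp_rw [this]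
    rw [chi_integral_le j q p hj0 hj1 hq0 hp1 h, abs_of_nonneg (by linarith)]

theorem pd : PDStmt := by
  intro E p a j hj0 hj1 hp
  have hsq : ∀ z, (∑ c ∈ range E, a c * chi j (p c) z) ^ 2 =
      ∑ c ∈ range E, ∑ d ∈ range E, a c * a d * (chi j (p c) z * chi j (p d) z) := by
    intro z
    rw [sq, sum_mul_sum]
    apply sum_congr rfl
    intro c _
    apply sum_congr rfl
    intro d _
    ring
  have hint : ∫ z, (∑ c ∈ range E, a c * chi j (p c) z) ^ 2 =
      ∑ c ∈ range E, ∑ d ∈ range E,
      a c * a d * (max 0 (j - |p c - p d|) - max 0 (j - 1 + |p c - p d|)) := by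
    simp_rw [hsq]
    rw [integral_finsetSum]
    · apply sum_congr rfl
      intro c hc
      rw [integral_finsetSum]
      · apply sum_congr rfl
        intro d hd
        rw [integral_const_mul, chi_integral j (p c) (p d) hj0 hj1 (hp c (mem_range.1 hc)).1
          (hp c (mem_range.1 hc)).2 (hp d (mem_range.1 hd)).1 (hp d (mem_range.1 hd)).2]
      · intro d _
        exact (chi_mul_integrable j (p c) (p d)).const_mul _
    · intro c _
      apply integrable_finsetSum
      intro d _
      exact (chi_mul_integrable j (p c) (p d)).const_mul _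
  rw [← hint]
  exact integral_nonneg (fun z => sq_nonneg _)

end Pool.Agent.Helper17.Dense
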